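import Pool.Agent.U29.DZ.Stm

/-!
# Project DZ (helper29), package SEQ (helper394): a slowly varying sequence of laws

Stages `t = 0, 1, 2, …` with the weights
`p t = (1 - a t) δ_0 + (a t / 2) Unif[0, D t) + (a t / 2) Unif[0, D (t + 1))`, `a t = 1 / (t + 2)`,
`D 0 = 1`, `D (t + 1) = d ^ Kf (a (t + 1) / 2)`. The sequence goes from `p t` to `p (t + 1)` in `n t` equal
steps along the segment, `2 / n t ≤ ηf (a (t + 1) / 2)`; the states are the pairs (stage, step).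
-/

set_option autoImplicit false

namespace Pool.Agent.U394.DZ

open Finset MeasureTheory Filter

/-- uniform weights on `{0, …, D - 1}` -/
noncomputable def U (D : ℕ) (u : ℤ) : ℝ := if 0 ≤ u ∧ u < (D : ℤ) then 1 / (D : ℝ) else 0

lemma U_nonneg (D : ℕ) (u : ℤ) : 0 ≤ U D u := by
  unfold U; split_ifs <;> positivity

lemma U_out (D : ℕ) (u : ℤ) (h : u < 0 ∨ (D : ℤ) ≤ u) : U D u = 0 := by
  unfold U; rw [if_neg]; omega

lemma U_in (D : ℕ) (u : ℤ) (h0 : 0 ≤ u) (h1 : u < (D : ℤ)) : U D u = 1 / (D : ℝ) := if_pos ⟨h0, h1⟩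

lemma U_sum_le (D : ℕ) (S : Finset ℤ) : ∑ u ∈ S, U D u ≤ 1 := by
  unfold U
  rw [← sum_filter, sum_const, nsmul_eq_mul]
  have h : (S.filter fun u : ℤ => 0 ≤ u ∧ u < (D : ℤ)).card ≤ D := by
    calc _ ≤ (Ico (0 : ℤ) D).card := card_le_card (fun u hu => by
          rw [mem_filter] at hu; exact mem_Ico.2 hu.2)
      _ = D := by simp
  rcases Nat.eq_zero_or_pos D with rfl | hD
  · simp
  · rw [mul_one_div, div_le_one (by exact_mod_cast hD)]
    exact_mod_cast h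

lemma U_sum (D M : ℕ) (hD : 1 ≤ D) (h : D ≤ M) : ∑ u ∈ Ico (0 : ℤ) M, U D u = 1 := by
  unfold U
  rw [← sum_filter, sum_const, nsmul_eq_mul]
  have e : ((Ico (0 : ℤ) M).filter fun u : ℤ => 0 ≤ u ∧ u < (D : ℤ)) = Ico (0 : ℤ) D := by
    ext u; rw [mem_filter, mem_Ico, mem_Ico]; omega
  rw [e, Int.card_Ico]
  have hD' : (D : ℝ) ≠ 0 := by exact_mod_cast (by omega : D ≠ 0)
  simp [hD']

lemma exists_measure (w : ℤ → ℝ) (M : ℕ) (h0 : ∀ u, 0 ≤ w u)
    (h1 : ∀ u : ℤ, u < 0 ∨ (M : ℤ) ≤ u → w u = 0) (hs : ∑ u ∈ Ico (0 : ℤ) M, w u = 1) :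
    ∃ μ : Measure ℤ, IsProbabilityMeasure μ ∧ (∀ u : ℤ, μ.real {u} = w u) ∧
      μ {u : ℤ | u < 0 ∨ (M : ℤ) ≤ u} = 0 := by
  let p : PMF ℤ := PMF.ofFinset (fun u => ENNReal.ofReal (w u)) (Ico (0 : ℤ) M)
    (by rw [← ENNReal.ofReal_sum_of_nonneg (fun u _ => h0 u), hs, ENNReal.ofReal_one])
    (fun u hu => by
      rw [mem_Ico] at hu
      rw [h1 u (by omega), ENNReal.ofReal_zero])
  refine ⟨p.toMeasure, inferInstance, fun u => ?_, ?_⟩
  · rw [measureReal_def, PMF.toMeasure_apply_singleton _ _ (measurableSet_singleton u)]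
    change (ENNReal.ofReal (w u)).toReal = w u
    exact ENNReal.toReal_ofReal (h0 u)
  · rw [PMF.toMeasure_apply_eq_zero_iff _ (MeasurableSet.of_discrete), Set.disjoint_left]
    intro u hu hu'
    rw [PMF.mem_support_iff] at hu
    apply hu
    change ENNReal.ofReal (w u) = 0
    rw [h1 u hu', ENNReal.ofReal_zero]

/-! ### the weights -/

/-- the weights of the stage `t` -/
noncomputable def pw (a : ℕ → ℝ) (D : ℕ → ℕ) (t : ℕ) (u : ℤ) : ℝ :=
  (1 - a t) * U 1 u + a t / 2 * U (D t) u + a t / 2 * U (D (t + 1)) u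

/-- the segment from the stage `t` to the stage `t + 1` -/
noncomputable def cw (a : ℕ → ℝ) (D : ℕ → ℕ) (l : ℝ) (t : ℕ) (u : ℤ) : ℝ :=
  (1 - l) * pw a D t u + l * pw a D (t + 1) u

section
variable {a : ℕ → ℝ} {D : ℕ → ℕ} (ha0 : ∀ t, 0 < a t) (ha1 : ∀ t, a t < 1)
  (haa : ∀ t, a (t + 1) ≤ a t) (hD : ∀ t, 1 ≤ D t)
include ha0 ha1

lemma pw_nonneg (t : ℕ) (u : ℤ) : 0 ≤ pw a D t u := by
  unfold pw
  have h1 := U_nonneg 1 u
  have h2 := U_nonneg (D t) u
  have h3 := U_nonneg (D (t + 1)) u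
  have := ha0 t
  have := ha1 t
  have e1 : 0 ≤ (1 - a t) * U 1 u := mul_nonneg (by linarith) h1
  have e2 : 0 ≤ a t / 2 * U (D t) u := mul_nonneg (by linarith) h2
  have e3 : 0 ≤ a t / 2 * U (D (t + 1)) u := mul_nonneg (by linarith) h3
  linarith

lemma pw_sum_le (t : ℕ) (S : Finset ℤ) : ∑ u ∈ S, pw a D t u ≤ 1 := by
  unfold pw
  rw [sum_add_distrib, sum_add_distrib, ← mul_sum, ← mul_sum, ← mul_sum]
  have h1 := U_sum_le 1 S
  have h2 := U_sum_le (D t) S
  have h3 := U_sum_le (D (t + 1)) S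
  have := ha0 t
  have := ha1 t
  have e1 : (1 - a t) * ∑ u ∈ S, U 1 u ≤ (1 - a t) * 1 := mul_le_mul_of_nonneg_left h1 (by linarith)
  have e2 : a t / 2 * ∑ u ∈ S, U (D t) u ≤ a t / 2 * 1 := mul_le_mul_of_nonneg_left h2 (by linarith)
  have e3 : a t / 2 * ∑ u ∈ S, U (D (t + 1)) u ≤ a t / 2 * 1 :=
    mul_le_mul_of_nonneg_left h3 (by linarith)
  linarith

omit ha0 ha1 in
include hD in
lemma pw_sum (t M : ℕ) (hM : 1 ≤ M) (h0 : D t ≤ M) (h1 : D (t + 1) ≤ M) :
    ∑ u ∈ Ico (0 : ℤ) M, pw a D t u = 1 := by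
  unfold pw
  rw [sum_add_distrib, sum_add_distrib, ← mul_sum, ← mul_sum, ← mul_sum, U_sum 1 M le_rfl hM,
    U_sum _ M (hD t) h0, U_sum _ M (hD (t + 1)) h1]
  ring

omit ha0 ha1 in
lemma pw_out (t M : ℕ) (hM : 1 ≤ M) (h0 : D t ≤ M) (h1 : D (t + 1) ≤ M) (u : ℤ)
    (hu : u < 0 ∨ (M : ℤ) ≤ u) : pw a D t u = 0 := by
  unfold pw
  rw [U_out 1 u (by omega), U_out (D t) u (by omega), U_out (D (t + 1)) u (by omega)]
  ring

lemma cw_nonneg (t : ℕ) (u : ℤ) (l : ℝ) (hl0 : 0 ≤ l) (hl1 : l ≤ 1) : 0 ≤ cw a D l t u := by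
  unfold cw
  have e1 : 0 ≤ (1 - l) * pw a D t u := mul_nonneg (by linarith) (pw_nonneg ha0 ha1 t u)
  have e2 : 0 ≤ l * pw a D (t + 1) u := mul_nonneg hl0 (pw_nonneg ha0 ha1 (t + 1) u)
  linarith

omit ha0 ha1 in
include hD in
lemma cw_sum (t M : ℕ) (l : ℝ) (hM : 1 ≤ M) (h0 : D t ≤ M) (h1 : D (t + 1) ≤ M)
    (h2 : D (t + 1 + 1) ≤ M) : ∑ u ∈ Ico (0 : ℤ) M, cw a D l t u = 1 := by
  unfold cw
  rw [sum_add_distrib, ← mul_sum, ← mul_sum, pw_sum hD t M hM h0 h1, pw_sum hD (t + 1) M hM h1 h2]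
  ring

omit ha0 ha1 in
lemma cw_out (t M : ℕ) (l : ℝ) (hM : 1 ≤ M) (h0 : D t ≤ M) (h1 : D (t + 1) ≤ M)
    (h2 : D (t + 1 + 1) ≤ M) (u : ℤ) (hu : u < 0 ∨ (M : ℤ) ≤ u) : cw a D l t u = 0 := by
  unfold cw
  rw [pw_out t M hM h0 h1 u hu, pw_out (t + 1) M hM h1 h2 u hu]
  ring

include haa in
lemma cw_low (t : ℕ) (u : ℤ) (l : ℝ) (hl0 : 0 ≤ l) (hl1 : l ≤ 1) (hu0 : 0 ≤ u)
    (hu1 : u < (D (t + 1) : ℤ)) : a (t + 1) / 2 / (D (t + 1) : ℝ) ≤ cw a D l t u := by
  have hp0 : a (t + 1) / 2 / (D (t + 1) : ℝ) ≤ pw a D t u := by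
    unfold pw
    rw [U_in (D (t + 1)) u hu0 hu1]
    have h1 := U_nonneg 1 u
    have h2 := U_nonneg (D t) u
    have := ha0 t
    have := ha1 t
    have e1 : 0 ≤ (1 - a t) * U 1 u := mul_nonneg (by linarith) h1
    have e2 : 0 ≤ a t / 2 * U (D t) u := mul_nonneg (by linarith) h2
    have e3 : a (t + 1) / 2 / (D (t + 1) : ℝ) ≤ a t / 2 * (1 / (D (t + 1) : ℝ)) := by
      rw [mul_one_div]
      exact div_le_div_of_nonneg_right (by linarith [haa t]) (Nat.cast_nonneg _)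
    linarith
  have hp1 : a (t + 1) / 2 / (D (t + 1) : ℝ) ≤ pw a D (t + 1) u := by
    unfold pw
    rw [U_in (D (t + 1)) u hu0 hu1]
    have h1 := U_nonneg 1 u
    have h2 := U_nonneg (D (t + 1 + 1)) u
    have := ha0 (t + 1)
    have := ha1 (t + 1)
    have e1 : 0 ≤ (1 - a (t + 1)) * U 1 u := mul_nonneg (by linarith) h1
    have e2 : 0 ≤ a (t + 1) / 2 * U (D (t + 1 + 1)) u := mul_nonneg (by linarith) h2
    have e3 : a (t + 1) / 2 / (D (t + 1) : ℝ) = a (t + 1) / 2 * (1 / (D (t + 1) : ℝ)) := by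
      rw [mul_one_div]
    linarith
  unfold cw
  have e1 := mul_le_mul_of_nonneg_left hp0 (by linarith : 0 ≤ 1 - l)
  have e2 := mul_le_mul_of_nonneg_left hp1 hl0
  linarith

include haa in
lemma cw_zero (t : ℕ) (l : ℝ) (hl0 : 0 ≤ l) (hl1 : l ≤ 1) : 1 - a t ≤ cw a D l t 0 := by
  have hp : ∀ s, 1 - a s ≤ pw a D s 0 := by
    intro s
    unfold pw
    have h0 : U 1 0 = 1 := by
      rw [U_in 1 0 le_rfl (by norm_num)]; norm_num
    rw [h0]
    have h1 := U_nonneg (D s) 0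
    have h2 := U_nonneg (D (s + 1)) 0
    have := ha0 s
    have e1 : 0 ≤ a s / 2 * U (D s) 0 := mul_nonneg (by linarith) h1
    have e2 : 0 ≤ a s / 2 * U (D (s + 1)) 0 := mul_nonneg (by linarith) h2
    linarith
  unfold cw
  have e1 := mul_le_mul_of_nonneg_left (hp t) (by linarith : 0 ≤ 1 - l)
  have e2 := mul_le_mul_of_nonneg_left ((by linarith [hp (t + 1), haa t] : 1 - a t ≤ pw a D (t + 1) 0)) hl0
  linarith

lemma cw_diff (t : ℕ) (l l' : ℝ) (S : Finset ℤ) :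
    ∑ u ∈ S, |cw a D l t u - cw a D l' t u| ≤ 2 * |l - l'| := by
  have h : ∀ u ∈ S, |cw a D l t u - cw a D l' t u| ≤ |l - l'| * (pw a D t u + pw a D (t + 1) u) := by
    intro u _
    have e : cw a D l t u - cw a D l' t u = (l - l') * (pw a D (t + 1) u - pw a D t u) := by
      unfold cw; ring
    rw [e, abs_mul]
    refine mul_le_mul_of_nonneg_left ?_ (abs_nonneg _)
    have h1 := pw_nonneg (D := D) ha0 ha1 t u
    have h2 := pw_nonneg (D := D) ha0 ha1 (t + 1) u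
    rw [abs_le]
    constructor <;> linarith
  refine (sum_le_sum h).trans ?_
  rw [← mul_sum, sum_add_distrib]
  have h1 := pw_sum_le (D := D) ha0 ha1 t S
  have h2 := pw_sum_le (D := D) ha0 ha1 (t + 1) S
  calc |l - l'| * (∑ u ∈ S, pw a D t u + ∑ u ∈ S, pw a D (t + 1) u)
      ≤ |l - l'| * (1 + 1) := mul_le_mul_of_nonneg_left (by linarith) (abs_nonneg _)
    _ = 2 * |l - l'| := by ring

end

/-! ### the states -/

/-- the sequence of the states -/
def sq (n : ℕ → ℕ) : ℕ → ℕ × ℕ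
  | 0 => (0, 0)
  | j + 1 => if (sq n j).2 + 1 < n (sq n j).1 then ((sq n j).1, (sq n j).2 + 1) else ((sq n j).1 + 1, 0)

lemma sq_succ (n : ℕ → ℕ) (j : ℕ) : sq n (j + 1) =
    if (sq n j).2 + 1 < n (sq n j).1 then ((sq n j).1, (sq n j).2 + 1) else ((sq n j).1 + 1, 0) := rfl

lemma sq_lt (n : ℕ → ℕ) (hn : ∀ t, 1 ≤ n t) : ∀ j, (sq n j).2 < n (sq n j).1
  | 0 => hn 0
  | j + 1 => by
    rw [sq_succ]
    split_ifs with h
    · exact h
    · exact hn _

lemma sq_mono (n : ℕ → ℕ) : Monotone fun j => (sq n j).1 := by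
  refine monotone_nat_of_le_succ fun j => ?_
  change (sq n j).1 ≤ (sq n (j + 1)).1
  rw [sq_succ]
  split_ifs
  · exact le_rfl
  · exact Nat.le_succ _

lemma sq_unb (n : ℕ → ℕ) (hn : ∀ t, 1 ≤ n t) : ∀ T, ∃ j, T ≤ (sq n j).1 := by
  intro T
  induction T with
  | zero => exact ⟨0, Nat.zero_le _⟩
  | succ T ih =>
    obtain ⟨j, hj⟩ := ih
    by_contra hcon
    push Not at hcon
    have hk : ∀ k, (sq n (j + k)).1 = T ∧ (sq n (j + k)).2 = (sq n j).2 + k := by
      intro k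
      induction k with
      | zero => exact ⟨by have := hcon j; simp only [Nat.add_zero]; omega, rfl⟩
      | succ k ihk =>
        have hc := hcon (j + (k + 1))
        rw [← Nat.add_assoc, sq_succ] at hc ⊢
        split_ifs at hc ⊢ with h
        · exact ⟨ihk.1, by simp only; omega⟩
        · exfalso
          simp only at hc
          omega
    have h1 := sq_lt n hn (j + n T)
    have h2 := hk (n T)
    rw [h2.1] at h1
    omega

theorem t_SEQ : Pool.Agent.U29.DZ.S_SEQ := by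
  intro d hd Kf ηf hη
  -- the data of the stages
  obtain ⟨a, ha⟩ : ∃ a : ℕ → ℝ, a = fun t => 1 / (((t + 1 : ℕ) : ℝ) + 1) := ⟨_, rfl⟩
  have ha0 : ∀ t, 0 < a t := fun t => by rw [ha]; positivity
  have ha1 : ∀ t, a t < 1 := fun t => by
    rw [ha]
    simp only
    rw [div_lt_one (by positivity)]
    push_cast
    have : (0 : ℝ) ≤ t := Nat.cast_nonneg t
    linarith
  have haa : ∀ t, a (t + 1) ≤ a t := fun t => by
    rw [ha]
    simp only
    apply one_div_le_one_div_of_le (by positivity)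
    push_cast
    linarith
  have halim : Tendsto a atTop (nhds 0) := by
    rw [ha]
    exact (tendsto_add_atTop_iff_nat (f := fun t : ℕ => 1 / ((t : ℝ) + 1)) 1).2
      tendsto_one_div_add_atTop_nhds_zero_nat
  set ee : ℕ → ℝ := fun t => a (t + 1) / 2 with hee
  have he0 : ∀ t, 0 < ee t := fun t => by rw [hee]; have := ha0 (t + 1); simp only; linarith
  have he1 : ∀ t, ee t < 1 := fun t => by rw [hee]; have := ha1 (t + 1); have := ha0 (t + 1); simp only; linarith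
  obtain ⟨D, hDdef⟩ : ∃ D : ℕ → ℕ, D = fun t => if t = 0 then 1 else d ^ Kf (ee (t - 1)) := ⟨_, rfl⟩
  have hD0 : D 0 = 1 := by rw [hDdef]; simp
  have hDs : ∀ t, D (t + 1) = d ^ Kf (ee t) := fun t => by rw [hDdef]; simp
  have hD : ∀ t, 1 ≤ D t := by
    intro t
    rcases t with _ | t
    · exact hD0.ge
    · rw [hDs]; exact Nat.one_le_pow _ _ (by omega)
  obtain ⟨n, hndef⟩ : ∃ n : ℕ → ℕ, n = fun t => ⌈2 / ηf (ee t)⌉₊ + 1 := ⟨_, rfl⟩
  have hn : ∀ t, 1 ≤ n t := fun t => by rw [hndef]; simp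
  have hnη : ∀ t, 2 * (1 / (n t : ℝ)) ≤ ηf (ee t) := by
    intro t
    have h1 : (0 : ℝ) < ηf (ee t) := hη _ (he0 t) (he1 t)
    have h2 : 2 / ηf (ee t) ≤ (n t : ℝ) := by
      rw [hndef]; push_cast
      have := Nat.le_ceil (2 / ηf (ee t))
      linarith
    have h3 : (0 : ℝ) < n t := by exact_mod_cast hn t
    rw [mul_one_div, div_le_iff₀ h3]
    rw [div_le_iff₀ h1] at h2
    linarith
  obtain ⟨M, hMdef⟩ : ∃ M : ℕ → ℕ, M = fun t => ∑ s ∈ range (t + 3), D s := ⟨_, rfl⟩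
  have hMD : ∀ t s, s < t + 3 → D s ≤ M t := by
    intro t s hs
    rw [hMdef]
    exact single_le_sum (f := D) (fun _ _ => Nat.zero_le _) (mem_range.2 hs)
  have hM1 : ∀ t, 1 ≤ M t := fun t => by have := hMD t 0 (by omega); rw [hD0] at this; exact this
  have hMm : Monotone M := by
    intro s t hst
    rw [hMdef]
    exact sum_le_sum_of_subset (range_subset_range.2 (by omega))
  -- the sequence
  set S : ℕ → ℕ × ℕ := sq n with hS
  set l : ℕ → ℝ := fun j => ((S j).2 : ℝ) / (n (S j).1 : ℝ) with hl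
  have hnpos : ∀ t, (0 : ℝ) < n t := fun t => by exact_mod_cast hn t
  have hl0 : ∀ j, 0 ≤ l j := fun j => by rw [hl]; positivity
  have hl1 : ∀ j, l j ≤ 1 := fun j => by
    rw [hl]; simp only
    rw [div_le_one (hnpos _)]
    exact_mod_cast (sq_lt n hn j).le
  -- the weights of the state `j + 1` on the segment of the state `j`
  have hnext : ∀ j, ∃ l' : ℝ, 0 ≤ l' ∧ l' ≤ 1 ∧ l' - l j = 1 / (n (S j).1 : ℝ) ∧
      ∀ u, cw a D (l (j + 1)) (S (j + 1)).1 u = cw a D l' (S j).1 u := by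
    intro j
    refine ⟨(((S j).2 + 1 : ℕ) : ℝ) / (n (S j).1 : ℝ), by positivity, ?_, ?_, ?_⟩
    · rw [div_le_one (hnpos _)]
      exact_mod_cast (sq_lt n hn j)
    · rw [hl]; simp only; push_cast; ring
    · intro u
      have hlt := sq_lt n hn j
      by_cases h : (S j).2 + 1 < n (S j).1
      · have e : S (j + 1) = ((S j).1, (S j).2 + 1) := by
          rw [hS] at h ⊢; rw [sq_succ, if_pos h]
        have e1 : (S (j + 1)).1 = (S j).1 := by rw [e]
        have e2 : (S (j + 1)).2 = (S j).2 + 1 := by rw [e]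
        have e3 : l (j + 1) = (((S j).2 + 1 : ℕ) : ℝ) / (n (S j).1 : ℝ) := by
          rw [hl]; simp only; rw [e1, e2]
        rw [e3, e1]
      · have e : S (j + 1) = ((S j).1 + 1, 0) := by
          rw [hS] at h ⊢; rw [sq_succ, if_neg h]
        have e1 : (S (j + 1)).1 = (S j).1 + 1 := by rw [e]
        have e2 : (S (j + 1)).2 = 0 := by rw [e]
        have e3 : l (j + 1) = 0 := by
          rw [hl]; simp only; rw [e2]; simp
        have e4 : (S j).2 + 1 = n (S j).1 := by rw [hS] at h ⊢; omega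
        rw [e3, e1, e4, div_self (hnpos _).ne']
        unfold cw
        ring
  have hex : ∀ j, ∃ μ : Measure ℤ, IsProbabilityMeasure μ ∧
      (∀ u : ℤ, μ.real {u} = cw a D (l j) (S j).1 u) ∧
      μ {u : ℤ | u < 0 ∨ (M (S j).1 : ℤ) ≤ u} = 0 := by
    intro j
    refine exists_measure _ _ (fun u => cw_nonneg ha0 ha1 _ u _ (hl0 j) (hl1 j)) (fun u hu => ?_) ?_
    · exact cw_out _ (M (S j).1) _ (hM1 _) (hMD _ _ (by omega)) (hMD _ _ (by omega))
        (hMD _ _ (by omega)) u hu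
    · exact cw_sum hD _ (M (S j).1) _ (hM1 _) (hMD _ _ (by omega)) (hMD _ _ (by omega))
        (hMD _ _ (by omega))
  choose ν hν1 hν2 hν3 using hex
  refine ⟨ν, fun j => ee (S j).1, fun j => M (S j).1, hν1, fun j => ⟨he0 _, he1 _⟩, ?_, ?_, hν3, ?_, ?_⟩
  · -- the mass at zero
    have ht : Tendsto (fun j => (S j).1) atTop atTop :=
      tendsto_atTop_atTop_of_monotone (sq_mono n) (sq_unb n hn)
    have h1 : Tendsto (fun j => 1 - a (S j).1) atTop (nhds 1) := by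
      have := (tendsto_const_nhds (x := (1 : ℝ))).sub (halim.comp ht)
      rw [sub_zero] at this
      exact this
    refine tendsto_of_tendsto_of_tendsto_of_le_of_le h1 tendsto_const_nhds (fun j => ?_) (fun j => ?_)
    · change 1 - a (S j).1 ≤ (ν j).real {0}
      rw [hν2]
      exact cw_zero ha0 ha1 haa _ _ (hl0 j) (hl1 j)
    · change (ν j).real {0} ≤ 1
      haveI := hν1 j
      exact measureReal_le_one
  · intro j
    refine ⟨hM1 _, hMm (sq_mono n (Nat.le_succ j)), ?_⟩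
    have := hMD (S j).1 ((S j).1 + 1) (by omega)
    rw [hDs] at this
    exact this
  · intro j u hu0 hu1
    have hu1' : u < (D ((S j).1 + 1) : ℤ) := by rw [hDs]; push_cast; exact hu1
    have hc : ((D ((S j).1 + 1) : ℕ) : ℝ) = (d : ℝ) ^ Kf (ee (S j).1) := by rw [hDs]; push_cast; rfl
    constructor
    · have := cw_low ha0 ha1 haa (S j).1 u (l j) (hl0 j) (hl1 j) hu0 hu1'
      rw [hc] at this
      rw [hν2]
      exact this
    · obtain ⟨l', h0', h1', _, h3'⟩ := hnext j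
      have := cw_low ha0 ha1 haa (S j).1 u l' h0' h1' hu0 hu1'
      rw [hc] at this
      rw [hν2, h3']
      exact this
  · intro j B
    obtain ⟨l', h0', h1', h2', h3'⟩ := hnext j
    have h := cw_diff (D := D) ha0 ha1 (S j).1 (l j) l' (Icc (-(B : ℤ)) B)
    have e : |l j - l'| = 1 / (n (S j).1 : ℝ) := by
      rw [abs_sub_comm, h2', abs_of_nonneg (by positivity)]
    rw [e] at h
    refine le_trans (le_of_eq ?_) (h.trans (hnη _))
    refine sum_congr rfl fun u _ => ?_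
    rw [hν2, hν2, h3']

end Pool.Agent.U394.DZ
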